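import Pool.Agent.Y195.LM.Stm

/-! Project LM: factorisation of the curvature (`S_PQ`). -/

set_option autoImplicit false

open MeasureTheory Set Filter Topology Metric Complex
open scoped ComplexConjugate Real

namespace Pool.Agent.Y31.LM

noncomputable section

/-! ## reflection -/

/-- reflection in the unit circle -/
def refl (q : ℂ → ℂ) (X : ℂ) : ℂ := conj (q ((conj X)⁻¹))

theorem inv_conj {X : ℂ} (h : ‖X‖ = 1) : (conj X)⁻¹ = X := by
  have h1 : X * conj X = 1 := by
    rw [Complex.mul_conj, Complex.normSq_eq_norm_sq, h]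
    simp
  exact (eq_inv_of_mul_eq_one_left h1).symm

theorem ne_zero {X : ℂ} (h : ‖X‖ = 1) : X ≠ 0 := by
  intro h0
  rw [h0, norm_zero] at h
  exact zero_ne_one h

theorem mul_conj_one {X : ℂ} (h : ‖X‖ = 1) : X * conj X = 1 := by
  rw [Complex.mul_conj, Complex.normSq_eq_norm_sq, h]
  simp

theorem refl_on (q : ℂ → ℂ) {X : ℂ} (h : ‖X‖ = 1) : refl q X = conj (q X) := by
  rw [refl, inv_conj h]

theorem refl_eq (q : ℂ → ℂ) : refl q = conj ∘ (fun Y => q Y⁻¹) ∘ conj := by
  funext X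
  simp [refl]

/-- the derivative of the reflection on the circle -/
theorem refl_deriv (q : ℂ → ℂ) {X : ℂ} (h : ‖X‖ = 1) (hq : DifferentiableAt ℂ q X) :
    X * deriv (refl q) X = -conj (X * deriv q X) := by
  have hc : ‖conj X‖ = 1 := by rw [Complex.norm_conj, h]
  have hX := inv_conj h
  have h1 : HasDerivAt (fun Y => q Y⁻¹) (deriv q X * (-(conj X ^ 2)⁻¹)) (conj X) := by
    have h2 : HasDerivAt (fun Y : ℂ => Y⁻¹) (-(conj X ^ 2)⁻¹) (conj X) :=
      hasDerivAt_inv (ne_zero hc)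
    have h3 : HasDerivAt q (deriv q X) ((conj X)⁻¹) := by
      rw [hX]
      exact hq.hasDerivAt
    exact h3.comp (conj X) h2
  rw [refl_eq, deriv_conj_conj]
  simp only [Function.comp_apply]
  rw [h1.deriv]
  have h4 := mul_conj_one h
  have h5 : (X ^ 2)⁻¹ = conj X ^ 2 := by
    rw [← inv_pow]
    congr 1
    exact (eq_inv_of_mul_eq_one_right h4).symm
  simp only [map_mul, map_neg, map_inv₀, map_pow, Complex.conj_conj]
  rw [h5]
  linear_combination (-(conj (deriv q X)) * conj X) * h4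

theorem refl_analytic (q : ℂ → ℂ) (hq : ∀ X : ℂ, ‖X‖ = 1 → AnalyticAt ℂ q X) {X : ℂ}
    (h : ‖X‖ = 1) : AnalyticAt ℂ (refl q) X := by
  have hX := inv_conj h
  have hc : ‖conj X‖ = 1 := by rw [Complex.norm_conj, h]
  have hU : IsOpen {Y : ℂ | AnalyticAt ℂ q Y} := isOpen_analyticAt ℂ q
  have hcont : ContinuousAt (fun Y : ℂ => (conj Y)⁻¹) X :=
    (Complex.continuous_conj.continuousAt).inv₀ (ne_zero hc)
  have hev : ∀ᶠ Y in 𝓝 X, (conj Y)⁻¹ ∈ {Y : ℂ | AnalyticAt ℂ q Y} := by
    refine hcont.eventually_mem (hU.mem_nhds ?_)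
    show AnalyticAt ℂ q ((conj X)⁻¹)
    rw [hX]
    exact hq X h
  have hne : ∀ᶠ Y in 𝓝 X, Y ≠ 0 := isOpen_ne.mem_nhds (ne_zero h)
  refine Complex.analyticAt_iff_eventually_differentiableAt.2 ?_
  filter_upwards [hev, hne] with Y hY hY0
  rw [refl_eq, differentiableAt_conj_conj_iff]
  have h1 : DifferentiableAt ℂ q ((conj Y)⁻¹) := AnalyticAt.differentiableAt hY
  have h2 : DifferentiableAt ℂ (fun Z : ℂ => Z⁻¹) (conj Y) :=
    differentiableAt_inv (by simpa using hY0)
  exact DifferentiableAt.comp (conj Y) h1 h2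

/-! ## the averaging primitive -/

theorem exists_annulus (U : Set ℂ) (hU : IsOpen U) (hsub : sphere (0 : ℂ) 1 ⊆ U) :
    ∃ η : ℝ, 0 < η ∧ ∀ X : ℂ, |‖X‖ - 1| ≤ η → X ∈ U := by
  obtain ⟨δ, hδ, hth⟩ := (isCompact_sphere (0 : ℂ) 1).exists_thickening_subset_open hU hsub
  refine ⟨min (δ / 2) (1 / 2), by positivity, fun X hX => hth ?_⟩
  have h1 : |‖X‖ - 1| ≤ δ / 2 := hX.trans (min_le_left _ _)
  have h2 : |‖X‖ - 1| ≤ 1 / 2 := hX.trans (min_le_right _ _)
  have h3 : 1 / 2 ≤ ‖X‖ := by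
    have := (abs_le.1 h2).1
    linarith
  have h0 : 0 < ‖X‖ := by linarith
  have hX0 : X ≠ 0 := norm_pos_iff.1 h0
  rw [mem_thickening_iff]
  refine ⟨((‖X‖⁻¹ : ℝ) : ℂ) * X, ?_, ?_⟩
  · rw [mem_sphere_zero_iff_norm, norm_mul, Complex.norm_real, norm_inv, norm_norm,
      inv_mul_cancel₀ h0.ne']
  · rw [dist_eq_norm]
    have h4 : X - ((‖X‖⁻¹ : ℝ) : ℂ) * X = ((1 - ‖X‖⁻¹ : ℝ) : ℂ) * X := by
      push_cast
      ring
    rw [h4, norm_mul, Complex.norm_real, Real.norm_eq_abs]
    have h5 : |1 - ‖X‖⁻¹| * ‖X‖ = |‖X‖ - 1| := by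
      conv_lhs => rw [← abs_of_pos h0, ← abs_mul]
      congr 1
      field_simp
      rw [abs_of_pos h0]
      ring
    rw [h5]
    linarith

theorem norm_rot (X : ℂ) (t : ℝ) : ‖X * exp (t * I)‖ = ‖X‖ := by
  rw [norm_mul, Complex.norm_exp_ofReal_mul_I, mul_one]

/-- the averaging primitive -/
def gam (c : ℂ → ℂ) (X : ℂ) : ℂ := (1 / 2) * ∫ t in (-π)..0, c (X * exp (t * I))

theorem gam_im (c : ℂ → ℂ) (hc : ContinuousOn c (sphere (0 : ℂ) 1))
    (him : ∀ X : ℂ, ‖X‖ = 1 → (c X).im = 0) {X : ℂ} (h : ‖X‖ = 1) : (gam c X).im = 0 := by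
  have hcont : Continuous fun t : ℝ => c (X * exp (t * I)) := by
    refine hc.comp_continuous (by fun_prop) fun t => ?_
    rw [mem_sphere_zero_iff_norm, norm_rot, h]
  have h1 := Complex.imCLM.intervalIntegral_comp_comm (hcont.intervalIntegrable (-π) 0 (μ := volume))
  have h2 : (∫ t in (-π)..0, Complex.imCLM (c (X * exp (t * I)))) = 0 := by
    have h3 : (fun t : ℝ => Complex.imCLM (c (X * exp (t * I)))) = fun _ => 0 := by
      funext t
      exact him _ (by rw [norm_rot, h])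
    rw [h3]
    simp
  rw [h2] at h1
  have h3 : (∫ t in (-π)..0, c (X * exp (t * I))).im = 0 := h1.symm
  rw [gam, Complex.mul_im, h3]
  norm_num

theorem gam_prop (c : ℂ → ℂ) (U : Set ℂ) (hU : IsOpen U) (hsub : sphere (0 : ℂ) 1 ⊆ U)
    (hc : DifferentiableOn ℂ c U) :
    (∀ X : ℂ, ‖X‖ = 1 → AnalyticAt ℂ (gam c) X) ∧
    ∀ X : ℂ, ‖X‖ = 1 → I * X * deriv (gam c) X = (c X - c (-X)) / 2 := by
  obtain ⟨η, hη, hA⟩ := exists_annulus U hU hsub
  have hdc : DifferentiableOn ℂ (deriv c) U := hc.deriv hU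
  -- a bound for the derivative
  have hK : IsCompact {X : ℂ | |‖X‖ - 1| ≤ η} := by
    refine (isCompact_closedBall (0 : ℂ) (1 + η)).of_isClosed_subset
      (isClosed_le (by fun_prop) continuous_const) fun X hX => ?_
    rw [mem_closedBall_zero_iff]
    have := (abs_le.1 (show |‖X‖ - 1| ≤ η from hX)).2
    linarith
  obtain ⟨M, hM⟩ := hK.exists_bound_of_continuousOn
    (hdc.continuousOn.mono fun X hX => hA X hX)
  have hs : IsOpen {X : ℂ | |‖X‖ - 1| < η} := isOpen_lt (by fun_prop) continuous_const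
  have hin : ∀ X : ℂ, |‖X‖ - 1| < η → ∀ t : ℝ, X * exp (t * I) ∈ U := by
    intro X hX t
    refine hA _ ?_
    rw [norm_rot]
    exact hX.le
  have hcont : ∀ X : ℂ, |‖X‖ - 1| < η → Continuous fun t : ℝ => c (X * exp (t * I)) := by
    intro X hX
    exact hc.continuousOn.comp_continuous (by fun_prop) fun t => hin X hX t
  have hcont' : ∀ X : ℂ, |‖X‖ - 1| < η →
      Continuous fun t : ℝ => deriv c (X * exp (t * I)) * exp (t * I) := by
    intro X hX
    refine Continuous.mul ?_ (by fun_prop)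
    exact hdc.continuousOn.comp_continuous (by fun_prop) fun t => hin X hX t
  have key : ∀ X : ℂ, |‖X‖ - 1| < η → HasDerivAt (gam c)
      ((1 / 2) * ∫ t in (-π)..0, deriv c (X * exp (t * I)) * exp (t * I)) X := by
    intro X hX
    have h1 := (intervalIntegral.hasDerivAt_integral_of_dominated_loc_of_deriv_le
      (μ := volume) (a := -π) (b := 0) (F := fun (x : ℂ) (t : ℝ) => c (x * exp (t * I)))
      (F' := fun (x : ℂ) (t : ℝ) => deriv c (x * exp (t * I)) * exp (t * I))
      (x₀ := X) (bound := fun _ => M) (s := {X : ℂ | |‖X‖ - 1| < η}) (hs.mem_nhds hX)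
      (Filter.eventually_of_mem (hs.mem_nhds hX) fun x hx =>
        (hcont x hx).aestronglyMeasurable)
      ((hcont X hX).intervalIntegrable _ _) (hcont' X hX).aestronglyMeasurable
      (Filter.Eventually.of_forall fun t _ x hx => by
        rw [norm_mul, Complex.norm_exp_ofReal_mul_I, mul_one]
        refine hM _ ?_
        show |‖x * exp (t * I)‖ - 1| ≤ η
        rw [norm_rot]
        exact (show |‖x‖ - 1| < η from hx).le)
      intervalIntegrable_const
      (Filter.Eventually.of_forall fun t _ x hx => by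
        have h2 : HasDerivAt c (deriv c (x * exp (t * I))) (x * exp (t * I)) :=
          (hc.differentiableAt (hU.mem_nhds (hin x hx t))).hasDerivAt
        have h3 : HasDerivAt (fun x : ℂ => x * exp (t * I)) (exp (t * I)) x := by
          simpa using (hasDerivAt_id x).mul_const (exp (t * I))
        exact h2.comp x h3)).2
    exact h1.const_mul (1 / 2)
  have h1η : ∀ X : ℂ, ‖X‖ = 1 → |‖X‖ - 1| < η := by
    intro X h
    rw [h, sub_self, abs_zero]
    exact hη
  refine ⟨fun X h => ?_, fun X h => ?_⟩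
  · refine Complex.analyticAt_iff_eventually_differentiableAt.2 ?_
    filter_upwards [hs.mem_nhds (h1η X h)] with Y hY
    exact (key Y hY).differentiableAt
  · rw [(key X (h1η X h)).deriv]
    have h2 : ∀ t : ℝ, HasDerivAt (fun t : ℝ => c (X * exp (t * I)))
        (I * X * (deriv c (X * exp (t * I)) * exp (t * I))) t := by
      intro t
      have e1 : HasDerivAt c (deriv c (X * exp (t * I))) (X * exp (t * I)) :=
        (hc.differentiableAt (hU.mem_nhds (hin X (h1η X h) t))).hasDerivAt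
      have e2 : HasDerivAt (fun t : ℝ => (t : ℂ) * I) I t := by
        simpa using (Complex.ofRealCLM.hasDerivAt (x := t)).mul_const I
      have e3 : HasDerivAt (fun t : ℝ => X * exp (t * I)) (X * (exp (t * I) * I)) t :=
        (e2.cexp).const_mul X
      have e4 := e1.comp_of_eq t e3 rfl
      refine e4.congr_deriv ?_
      ring
    have h3 := intervalIntegral.integral_eq_sub_of_hasDerivAt (a := -π) (b := 0)
      (fun t _ => h2 t) (((hcont' X (h1η X h)).const_mul (I * X)).intervalIntegrable _ _)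
    rw [intervalIntegral.integral_const_mul] at h3
    have h4 : X * exp (((-π : ℝ) : ℂ) * I) = -X := by
      have : exp (((-π : ℝ) : ℂ) * I) = -1 := by
        rw [Complex.ofReal_neg, neg_mul, Complex.exp_neg, Complex.exp_pi_mul_I]
        norm_num
      rw [this]
      ring
    have h5 : X * exp (((0 : ℝ) : ℂ) * I) = X := by
      rw [Complex.ofReal_zero, zero_mul, Complex.exp_zero, mul_one]
    rw [h4, h5] at h3
    linear_combination (1 / 2) * h3

/-! ## the theorem -/

theorem dense_sin : Dense {t : ℝ | Real.sin t ≠ 0} := by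
  have h1 : {t : ℝ | Real.sin t ≠ 0} = (Set.range fun n : ℤ => (n : ℝ) * π)ᶜ := by
    ext t
    simp only [mem_ofPred_eq, mem_compl_iff, mem_range, ne_eq]
    rw [Real.sin_eq_zero_iff]
  rw [h1]
  exact (Set.countable_range _).dense_compl ℝ

/-- the curvature times the speed squared -/
def Kc (f : ℂ → ℂ) (X : ℂ) : ℝ := ‖deriv f X‖ * (1 + X * deriv (deriv f) X / deriv f X).re

/-- `X f'(X)` -/
def qf (f : ℂ → ℂ) (X : ℂ) : ℂ := X * deriv f X

/-- the square root of `q q*` -/
def rr (f : ℂ → ℂ) (X : ℂ) : ℂ := exp (log (qf f X * refl (qf f) X) / 2)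

/-- the holomorphic extension of the curvature -/
def Kh (f : ℂ → ℂ) (X : ℂ) : ℂ :=
  (X * deriv (qf f) X * refl (qf f) X - qf f X * (X * deriv (refl (qf f)) X)) / (2 * rr f X)

section

variable {f : ℂ → ℂ} (hf : ∀ X : ℂ, ‖X‖ = 1 → AnalyticAt ℂ f X)
  (hf0 : ∀ X : ℂ, ‖X‖ = 1 → deriv f X ≠ 0)

include hf in
theorem qf_analytic {X : ℂ} (h : ‖X‖ = 1) : AnalyticAt ℂ (qf f) X :=
  analyticAt_id.mul (hf X h).deriv

include hf in
theorem qf_deriv {X : ℂ} (h : ‖X‖ = 1) :
    deriv (qf f) X = deriv f X + X * deriv (deriv f) X := by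
  have h1 : HasDerivAt (deriv f) (deriv (deriv f) X) X := (hf X h).deriv.differentiableAt.hasDerivAt
  have h2 : HasDerivAt (qf f) (1 * deriv f X + X * deriv (deriv f) X) X :=
    (hasDerivAt_id X).mul h1
  rw [h2.deriv, one_mul]

theorem R_on {X : ℂ} (h : ‖X‖ = 1) :
    qf f X * refl (qf f) X = ((‖deriv f X‖ ^ 2 : ℝ) : ℂ) := by
  rw [refl_on _ h, Complex.mul_conj, Complex.normSq_eq_norm_sq, qf, norm_mul, h, one_mul]

include hf0 in
theorem rr_on {X : ℂ} (h : ‖X‖ = 1) : rr f X = (‖deriv f X‖ : ℂ) := by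
  have h0 : 0 < ‖deriv f X‖ := norm_pos_iff.2 (hf0 X h)
  rw [rr, R_on h, ← Complex.ofReal_log (by positivity), Real.log_pow]
  have h1 : (((2 : ℕ) * Real.log ‖deriv f X‖ : ℝ) : ℂ) / 2 = (Real.log ‖deriv f X‖ : ℂ) := by
    push_cast
    ring
  rw [h1, ← Complex.ofReal_exp, Real.exp_log h0]

include hf hf0 in
theorem Kh_on {X : ℂ} (h : ‖X‖ = 1) : Kh f X = (Kc f X : ℂ) := by
  have h0 : 0 < ‖deriv f X‖ := norm_pos_iff.2 (hf0 X h)
  have h0' : (‖deriv f X‖ : ℂ) ≠ 0 := by exact_mod_cast h0.ne'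
  have hz := hf0 X h
  rw [Kh, rr_on hf0 h, refl_deriv _ h (qf_analytic hf h).differentiableAt, refl_on _ h,
    qf_deriv hf h]
  have e1 : X * (deriv f X + X * deriv (deriv f) X) * conj (qf f X) =
      ((‖deriv f X‖ ^ 2 : ℝ) : ℂ) * (1 + X * deriv (deriv f) X / deriv f X) := by
    have h1 := mul_conj_one h
    have h2 : ((‖deriv f X‖ ^ 2 : ℝ) : ℂ) = deriv f X * conj (deriv f X) := by
      rw [Complex.mul_conj, Complex.normSq_eq_norm_sq]
    rw [h2, qf, map_mul]
    field_simp
    linear_combination (deriv f X + X * deriv (deriv f) X) * conj (deriv f X) * h1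
  have e2 : qf f X * -conj (X * (deriv f X + X * deriv (deriv f) X)) =
      -conj (X * (deriv f X + X * deriv (deriv f) X) * conj (qf f X)) := by
    simp only [map_mul, Complex.conj_conj]
    ring
  rw [e2, e1, sub_neg_eq_add, Complex.add_conj, Complex.re_ofReal_mul, Kc]
  push_cast
  field_simp

include hf hf0 in
theorem Kh_analytic {X : ℂ} (h : ‖X‖ = 1) : AnalyticAt ℂ (Kh f) X := by
  have hq := qf_analytic hf h
  have hq' := refl_analytic (qf f) (fun X h => qf_analytic hf h) h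
  have h0 : 0 < ‖deriv f X‖ := norm_pos_iff.2 (hf0 X h)
  have hr : AnalyticAt ℂ (rr f) X := by
    refine AnalyticAt.cexp (AnalyticAt.div ((hq.mul hq').clog ?_) analyticAt_const two_ne_zero)
    show qf f X * refl (qf f) X ∈ slitPlane
    rw [R_on h, Complex.ofReal_mem_slitPlane]
    positivity
  refine AnalyticAt.div (((analyticAt_id.mul hq.deriv).mul hq').sub
    (hq.mul (analyticAt_id.mul hq'.deriv))) (analyticAt_const.mul hr) ?_
  rw [rr_on hf0 h]
  exact mul_ne_zero two_ne_zero (by exact_mod_cast h0.ne')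

end

theorem Kc_neg {f : ℂ → ℂ} (hodd : ∀ X, f (-X) = -f X) (X : ℂ) : Kc f (-X) = Kc f X := by
  have hd1 : ∀ X, deriv f (-X) = deriv f X := by
    intro X
    have h : deriv (fun x => f (-x)) X = deriv (fun x => -f x) X :=
      congrArg (fun g => deriv g X) (funext hodd)
    rw [deriv_comp_neg, deriv.fun_neg] at h
    exact neg_injective h
  have hd2 : ∀ X, deriv (deriv f) (-X) = -deriv (deriv f) X := by
    intro X
    have h : deriv (fun x => deriv f (-x)) X = deriv (fun x => deriv f x) X :=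
      congrArg (fun g => deriv g X) (funext hd1)
    rw [deriv_comp_neg] at h
    rw [← h, neg_neg]
  rw [Kc, Kc, hd1, hd2, neg_mul_neg]

theorem pq : Pool.Agent.Y195.LM.S_PQ := by
  intro f hf hf0 hodd hX0
  obtain ⟨X0, hn, hk⟩ := hX0
  have h00 : X0 ≠ 0 := ne_zero hn
  set U : Set ℂ := {X | AnalyticAt ℂ (Kh f) X} with hUdef
  have hU : IsOpen U := isOpen_analyticAt ℂ (Kh f)
  have hsub : sphere (0 : ℂ) 1 ⊆ U := fun X hX =>
    Kh_analytic hf hf0 (mem_sphere_zero_iff_norm.1 hX)
  have hKd : DifferentiableOn ℂ (Kh f) U := fun X hX =>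
    (AnalyticAt.differentiableAt hX).differentiableWithinAt
  have hn' : ‖-X0‖ = 1 := by rw [norm_neg, hn]
  have hU1 : U ∈ 𝓝 X0 := hU.mem_nhds (hsub (mem_sphere_zero_iff_norm.2 hn))
  have hU2 : U ∈ 𝓝 (-X0) := hU.mem_nhds (hsub (mem_sphere_zero_iff_norm.2 hn'))
  set D1 := dslope (Kh f) X0 with hD1
  set D2 := dslope D1 (-X0) with hD2
  have hD1d : DifferentiableOn ℂ D1 U := (Complex.differentiableOn_dslope hU1).2 hKd
  have hD2d : DifferentiableOn ℂ D2 U := (Complex.differentiableOn_dslope hU2).2 hD1d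
  have hK0 : Kc f X0 = 0 := by rw [Kc, hk, mul_zero]
  have z1 : Kh f X0 = 0 := by rw [Kh_on hf hf0 hn, hK0, Complex.ofReal_zero]
  have z2 : Kh f (-X0) = 0 := by
    rw [Kh_on hf hf0 hn', Kc_neg hodd, hK0, Complex.ofReal_zero]
  have id1 : ∀ X, (X - X0) * D1 X = Kh f X := by
    intro X
    have h := sub_smul_dslope (Kh f) X0 X
    rw [smul_eq_mul, z1, sub_zero] at h
    exact h
  have z3 : D1 (-X0) = 0 := by
    have h := id1 (-X0)
    rw [z2] at h
    have h2 : -X0 - X0 ≠ 0 := by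
      intro h3
      apply h00
      linear_combination (-1 / 2) * h3
    exact (mul_eq_zero.1 h).resolve_left h2
  have id2 : ∀ X, (X - X0) * (X + X0) * D2 X = Kh f X := by
    intro X
    have h := sub_smul_dslope D1 (-X0) X
    rw [smul_eq_mul, z3, sub_zero] at h
    rw [← id1 X, ← h]
    ring
  set c : ℂ → ℂ := fun X => 2 * I * X0 * X * D2 X with hc
  have hcd : DifferentiableOn ℂ c U := by
    refine DifferentiableOn.mul ?_ hD2d
    exact (differentiableOn_const _).mul differentiableOn_id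
  -- points of the circle
  have hpt : ∀ t : ℝ, ‖X0 * exp (t * I)‖ = 1 := fun t => by rw [norm_rot, hn]
  have hC : ∀ t : ℝ, c (X0 * exp (t * I)) * (Real.sin t : ℂ) = (Kc f (X0 * exp (t * I)) : ℂ) := by
    intro t
    rw [← Kh_on hf hf0 (hpt t), ← id2, Complex.ofReal_sin]
    have e0 : exp ((t : ℂ) * I) ≠ 0 := Complex.exp_ne_zero _
    have e1 : Complex.sin (t : ℂ) = (exp (t * I) - (exp (t * I))⁻¹) / (2 * I) := by
      rw [Complex.sin, ← Complex.exp_neg]
      rw [neg_mul]
      field_simp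
      rw [Complex.I_sq]
      ring
    rw [e1, hc]
    field_simp
    ring
  have hCc : Continuous fun t : ℝ => c (X0 * exp (t * I)) := by
    refine hcd.continuousOn.comp_continuous (by fun_prop) fun t => ?_
    exact hsub (mem_sphere_zero_iff_norm.2 (hpt t))
  have him : ∀ t : ℝ, (c (X0 * exp (t * I))).im = 0 := by
    have h1 : (fun t : ℝ => (c (X0 * exp (t * I))).im) = fun _ => 0 := by
      refine Continuous.ext_on dense_sin (Complex.continuous_im.comp hCc) continuous_const ?_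
      intro t ht
      have h2 := congrArg Complex.im (hC t)
      rw [Complex.mul_im, Complex.ofReal_im, Complex.ofReal_im, Complex.ofReal_re, mul_zero,
        zero_add] at h2
      exact (mul_eq_zero.1 h2).resolve_right ht
    exact fun t => congrFun h1 t
  have hneg : ∀ t : ℝ, X0 * exp (((t + π : ℝ) : ℂ) * I) = -(X0 * exp (t * I)) := by
    intro t
    rw [Complex.ofReal_add, add_mul, Complex.exp_add, Complex.exp_pi_mul_I]
    ring
  have hCodd : ∀ t : ℝ, c (-(X0 * exp (t * I))) = -c (X0 * exp (t * I)) := by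
    have h1 : (fun t : ℝ => c (-(X0 * exp (t * I)))) = fun t : ℝ => -c (X0 * exp (t * I)) := by
      refine Continuous.ext_on dense_sin ?_ hCc.neg ?_
      · have h2 : (fun t : ℝ => c (-(X0 * exp (t * I)))) =
            fun t : ℝ => c (X0 * exp (((t + π : ℝ) : ℂ) * I)) := by
          funext t
          rw [hneg]
        rw [h2]
        exact hCc.comp (continuous_id.add continuous_const)
      · intro t ht
        have h2 := hC (t + π)
        rw [hneg, Kc_neg hodd, ← hC t, Real.sin_add_pi] at h2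
        have h3 : (Real.sin t : ℂ) ≠ 0 := by exact_mod_cast ht
        refine mul_right_cancel₀ h3 ?_
        push_cast at h2 ⊢
        linear_combination -h2
    exact fun t => congrFun h1 t
  have hex : ∀ X : ℂ, ‖X‖ = 1 → ∃ t : ℝ, X = X0 * exp (t * I) := by
    intro X h
    refine ⟨arg (X / X0), ?_⟩
    have h1 := Complex.norm_mul_exp_arg_mul_I (X / X0)
    rw [norm_div, h, hn, div_one, Complex.ofReal_one, one_mul] at h1
    rw [h1]
    field_simp
  have himX : ∀ X : ℂ, ‖X‖ = 1 → (c X).im = 0 := by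
    intro X h
    obtain ⟨t, rfl⟩ := hex X h
    exact him t
  obtain ⟨hg1, hg2⟩ := gam_prop c U hU hsub hcd
  have hg3 : ∀ X : ℂ, ‖X‖ = 1 → (gam c X).im = 0 := fun X h =>
    gam_im c (hcd.continuousOn.mono hsub) himX h
  -- the elementary part
  set al : ℂ → ℂ := fun X => -(X * X0⁻¹ + X0 * X⁻¹) / 2 with hal
  have hald : ∀ X : ℂ, X ≠ 0 → HasDerivAt al (-(X0⁻¹ - X0 * (X ^ 2)⁻¹) / 2) X := by
    intro X hX
    have h1 : HasDerivAt (fun X : ℂ => X * X0⁻¹ + X0 * X⁻¹) (1 * X0⁻¹ + X0 * -(X ^ 2)⁻¹) X :=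
      ((hasDerivAt_id X).mul_const _).add ((hasDerivAt_inv hX).const_mul X0)
    refine (h1.neg.div_const 2).congr_deriv ?_
    ring
  have hala : ∀ X : ℂ, X ≠ 0 → AnalyticAt ℂ al X := by
    intro X hX
    refine Complex.analyticAt_iff_eventually_differentiableAt.2 ?_
    filter_upwards [isOpen_ne.mem_nhds hX] with Y hY
    exact (hald Y hY).differentiableAt
  have hecos : ∀ t : ℝ, al (X0 * exp (t * I)) = ((-Real.cos t : ℝ) : ℂ) := by
    intro t
    have e0 : exp ((t : ℂ) * I) ≠ 0 := Complex.exp_ne_zero _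
    rw [hal, Complex.ofReal_neg, Complex.ofReal_cos, Complex.cos, neg_mul, Complex.exp_neg]
    field_simp
  have hesin : ∀ t : ℝ, I * (X0 * exp (t * I)) * (-(X0⁻¹ - X0 * ((X0 * exp (t * I)) ^ 2)⁻¹) / 2) =
      (Real.sin t : ℂ) := by
    intro t
    have e0 : exp ((t : ℂ) * I) ≠ 0 := Complex.exp_ne_zero _
    rw [Complex.ofReal_sin, Complex.sin, neg_mul, Complex.exp_neg]
    field_simp
    ring
  refine ⟨fun X => (al X + gam c X) / 2, fun X => (gam c X - al X) / 2, ?_, ?_, ?_, ?_, ?_⟩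
  · intro X h
    exact ((hala X (ne_zero h)).add (hg1 X h)).div analyticAt_const two_ne_zero
  · intro X h
    exact ((hg1 X h).sub (hala X (ne_zero h))).div analyticAt_const two_ne_zero
  · intro X h
    obtain ⟨t, rfl⟩ := hex X h
    have h1 : ((al (X0 * exp (t * I)) + gam c (X0 * exp (t * I))) / 2).im =
        ((al (X0 * exp (t * I))).im + (gam c (X0 * exp (t * I))).im) / 2 := by
      rw [show (2 : ℂ) = ((2 : ℝ) : ℂ) by norm_num, Complex.div_ofReal_im, Complex.add_im]
    rw [h1, hecos, hg3 _ h, Complex.ofReal_im]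
    norm_num
  · intro X h
    obtain ⟨t, rfl⟩ := hex X h
    have h1 : ((gam c (X0 * exp (t * I)) - al (X0 * exp (t * I))) / 2).im =
        ((gam c (X0 * exp (t * I))).im - (al (X0 * exp (t * I))).im) / 2 := by
      rw [show (2 : ℂ) = ((2 : ℝ) : ℂ) by norm_num, Complex.div_ofReal_im, Complex.sub_im]
    rw [h1, hecos, hg3 _ h, Complex.ofReal_im]
    norm_num
  · intro X h
    obtain ⟨t, rfl⟩ := hex X h
    set X := X0 * exp (t * I) with hX
    have hX0 := ne_zero h
    have dg : HasDerivAt (gam c) (deriv (gam c) X) X := (hg1 X h).differentiableAt.hasDerivAt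
    have da := hald X hX0
    have dP : deriv (fun X => (al X + gam c X) / 2) X =
        (-(X0⁻¹ - X0 * (X ^ 2)⁻¹) / 2 + deriv (gam c) X) / 2 := ((da.add dg).div_const 2).deriv
    have dQ : deriv (fun X => (gam c X - al X) / 2) X =
        (deriv (gam c) X - -(X0⁻¹ - X0 * (X ^ 2)⁻¹) / 2) / 2 := ((dg.sub da).div_const 2).deriv
    have nrm : ∀ z : ℂ, ‖z‖ = ‖I * X * z‖ := by
      intro z
      rw [norm_mul, norm_mul, Complex.norm_I, h, one_mul, one_mul]
    have hcr : c X = ((c X).re : ℂ) := by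
      apply Complex.ext
      · rw [Complex.ofReal_re]
      · rw [Complex.ofReal_im, himX X h]
    have g2 : I * X * deriv (gam c) X = c X := by
      rw [hg2 X h, hCodd t]
      ring
    have s2 := hesin t
    rw [← hX] at s2
    have kc := hC t
    rw [← hX, hcr, ← Complex.ofReal_mul, Complex.ofReal_inj] at kc
    have eP : I * X * ((-(X0⁻¹ - X0 * (X ^ 2)⁻¹) / 2 + deriv (gam c) X) / 2) =
        (((Real.sin t + (c X).re) / 2 : ℝ) : ℂ) := by
      push_cast
      rw [← hcr]
      push_cast at s2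
      linear_combination (1 / 2) * s2 + (1 / 2) * g2
    have eQ : I * X * ((deriv (gam c) X - -(X0⁻¹ - X0 * (X ^ 2)⁻¹) / 2) / 2) =
        ((((c X).re - Real.sin t) / 2 : ℝ) : ℂ) := by
      push_cast
      rw [← hcr]
      push_cast at s2
      linear_combination (-1 / 2) * s2 + (1 / 2) * g2
    rw [dP, dQ, nrm, eP, nrm ((deriv (gam c) X - -(X0⁻¹ - X0 * (X ^ 2)⁻¹) / 2) / 2), eQ,
      Complex.norm_real, Complex.norm_real, Real.norm_eq_abs, Real.norm_eq_abs, sq_abs, sq_abs]
    show _ = Kc f X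
    rw [← kc]
    ring

end

end Pool.Agent.Y31.LM
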