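import Pool.Agent.Y31.LM.Gg
import Pool.Agent.TH75.J1302
import Pool.Agent.TH75.J1303

/-! Project LM: the piecewise harmonic function is in `SBV_loc` (`S_SBV`).
This is `Pool/Agent/TH209/J1349.lean` and `J1350.lean` for general data. -/

set_option autoImplicit false

open MeasureTheory Set Filter Topology Metric
open scoped ENNReal ComplexConjugate

namespace Pool.Agent.Y31.LMS

open Pool.Agent.TH605.MS Pool.Agent.TH75.MS Pool.Agent.Y195.LM Pool.Agent.TH113.MS
open Pool.Agent.Y31.LMG (gauss_green curveGam gam_int nu0_contOn Gam_finite)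

/-- interface between two functions which are continuous at the point -/
theorem isJump_interface2 {u v w φ : ℂ → ℝ} {x n : ℂ} {B : ℝ} (hn : n ≠ 0)
    (hφ : HasFDerivAt φ (innerSL ℝ n) x) (hφ0 : φ x = 0) (hv : ContinuousAt v x)
    (hw : ContinuousAt w x) (hC : v x ≠ w x) (hum : AEMeasurable u)
    (h1 : ∀ᶠ y in 𝓝 x, 0 < φ y → u y = v y) (h2 : ∀ᶠ y in 𝓝 x, φ y < 0 → u y = w y)
    (hB : ∀ᶠ y in 𝓝 x, |u y| ≤ B) : IsJump u x (v x) (w x) ((‖n‖⁻¹ : ℝ) • n) := by
  have hn' : 0 < ‖n‖ := norm_pos_iff.2 hn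
  have hline : ∀ z : ℂ, Tendsto (fun r : ℝ => x + r • z) (𝓝[>] 0) (𝓝 x) := by
    intro z
    have h3 : ContinuousAt (fun r : ℝ => x + r • z) 0 := by fun_prop
    have h4 := h3.tendsto
    simp only [zero_smul, add_zero] at h4
    exact h4.mono_left nhdsWithin_le_nhds
  have hslope : ∀ z : ℂ, Tendsto (fun r : ℝ => r⁻¹ * φ (x + r • z)) (𝓝[>] 0)
      (𝓝 (inner ℝ n z)) := by
    intro z
    have h3 : HasDerivAt (fun r : ℝ => x + r • z) z 0 := by
      have := ((hasDerivAt_id (0 : ℝ)).smul_const z).const_add x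
      simpa using this
    have h4 : HasFDerivAt φ (innerSL ℝ n) (x + (0 : ℝ) • z) := by simpa using hφ
    have h5 := h4.comp_hasDerivAt (0 : ℝ) h3
    have h6 := (hasDerivAt_iff_tendsto_slope_zero.1 h5).mono_left
      (nhdsWithin_mono 0 (fun r (hr : 0 < r) => hr.ne'))
    refine h6.congr fun r => ?_
    simp [hφ0]
  refine ⟨hC, ?_, ?_, ?_⟩
  · rw [norm_smul, Real.norm_eq_abs, abs_of_pos (inv_pos.2 hn'), inv_mul_cancel₀ hn'.ne']
  · refine half_avg_tendsto hum hB fun z hz => ?_
    have hz' : 0 < inner ℝ n z := by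
      rw [real_inner_smul_right, real_inner_comm] at hz
      exact (mul_pos_iff_of_pos_left (inv_pos.2 hn')).1 hz
    have h3 : ∀ᶠ r : ℝ in 𝓝[>] 0, 0 < φ (x + r • z) := by
      filter_upwards [(hslope z).eventually (lt_mem_nhds hz'), self_mem_nhdsWithin] with r hr hr0
      exact (mul_pos_iff_of_pos_left (inv_pos.2 hr0)).1 hr
    refine (hv.tendsto.comp (hline z)).congr' ?_
    filter_upwards [h3, (hline z).eventually h1] with r hr hr1
    exact (hr1 hr).symm
  · refine half_avg_tendsto hum hB fun z hz => ?_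
    have hz' : inner ℝ n z < 0 := by
      rw [inner_neg_right, real_inner_smul_right, real_inner_comm, ← mul_neg] at hz
      have := (mul_pos_iff_of_pos_left (inv_pos.2 hn')).1 hz
      linarith
    have h3 : ∀ᶠ r : ℝ in 𝓝[>] 0, φ (x + r • z) < 0 := by
      filter_upwards [(hslope z).eventually (gt_mem_nhds hz'), self_mem_nhdsWithin] with r hr hr0
      have hr0' : 0 < r⁻¹ := inv_pos.2 hr0
      by_contra hcon
      push Not at hcon
      have := mul_nonneg hr0'.le hcon
      linarith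
    refine (hw.tendsto.comp (hline z)).congr' ?_
    filter_upwards [h3, (hline z).eventually h2] with r hr hr1
    exact (hr1 hr).symm

/-- the gradient of the real part of a holomorphic function -/
lemma grad_re {H : ℂ → ℂ} {c z : ℂ} (h : HasDerivAt H c z) :
    HasFDerivAt (fun z => (H z).re) (innerSL ℝ (conj c)) z := by
  have h1 : HasFDerivAt H (((ContinuousLinearMap.toSpanSingleton ℂ c).restrictScalars ℝ :
      ℂ →L[ℝ] ℂ)) z := h.hasFDerivAt.restrictScalars ℝ
  have h2 := (Complex.reCLM.hasFDerivAt (x := H z)).comp z h1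
  refine h2.congr_fderiv ?_
  ext e
  simp [Complex.inner]

variable (D : Dat)

lemma kinv_comp {P P' : ℂ → ℂ} (hP : ∀ X ∈ D.W, HasDerivAt P (P' X) X) {X : ℂ} (hX : X ∈ D.W) :
    HasDerivAt (fun z => P (D.kinv z)) (P' X / D.k X) (D.f X) := by
  have h1 := D.kinv_deriv hX
  have h2 : HasDerivAt P (P' X) (D.kinv (D.f X)) := by
    rw [D.kinv_f hX]
    exact hP X hX
  have h3 := h2.comp (D.f X) h1
  refine h3.congr_deriv ?_
  rw [div_eq_mul_inv]

theorem vP_grad {X : ℂ} (hX : X ∈ An D.σ) :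
    HasFDerivAt D.vP (innerSL ℝ (conj (D.P' X / D.k X))) (D.f X) :=
  grad_re (kinv_comp D D.hP (D.An_sub hX))

theorem vQ_grad {X : ℂ} (hX : X ∈ An D.σ) :
    HasFDerivAt D.vQ (innerSL ℝ (conj (D.Q' X / D.k X))) (D.f X) :=
  grad_re (kinv_comp D D.hQ (D.An_sub hX))

lemma vP_contOn : ContinuousOn D.vP D.Om := by
  rintro z ⟨X, hX, rfl⟩
  exact (vP_grad D hX).continuousAt.continuousWithinAt

lemma vQ_contOn : ContinuousOn D.vQ D.Om := by
  rintro z ⟨X, hX, rfl⟩
  exact (vQ_grad D hX).continuousAt.continuousWithinAt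

lemma cA_sub {X : ℂ} (hX : X ∈ An D.σ) : X ∈ {X : ℂ | |‖X‖ ^ 2 - 1| ≤ D.σ} := by
  have h : |‖X‖ ^ 2 - 1| < D.σ := hX
  exact h.le

lemma u0_bound : ∃ B : ℝ, 0 ≤ B ∧ ∀ z, |D.u0 z| ≤ B := by
  obtain ⟨B1, h1⟩ := D.cAn_compact.exists_bound_of_continuousOn (D.P_contOn.mono D.sub)
  obtain ⟨B2, h2⟩ := D.cAn_compact.exists_bound_of_continuousOn (D.Q_contOn.mono D.sub)
  refine ⟨max 0 (max B1 B2), le_max_left _ _, fun z => ?_⟩
  by_cases hz : z ∈ D.Om
  · obtain ⟨X, hX, rfl⟩ := hz
    rcases lt_or_ge ‖X‖ 1 with h | h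
    · rw [D.u0_in hX h]
      exact ((Complex.abs_re_le_norm _).trans (h2 X (cA_sub D hX))).trans
        ((le_max_right _ _).trans (le_max_right _ _))
    · rw [D.u0_out hX h]
      exact ((Complex.abs_re_le_norm _).trans (h1 X (cA_sub D hX))).trans
        ((le_max_left _ _).trans (le_max_right _ _))
  · unfold Dat.u0
    rw [if_neg (fun h => hz (D.OmIn_sub h)), if_neg hz, abs_zero]
    exact le_max_left _ _

lemma g0_bound : ∃ B : ℝ, 0 ≤ B ∧ ∀ z, ‖D.g0 z‖ ≤ B := by
  have hk : ∀ X ∈ {X : ℂ | |‖X‖ ^ 2 - 1| ≤ D.σ}, D.k X ≠ 0 := fun X hX => D.k0 X (D.sub hX)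
  obtain ⟨B1, h1⟩ := D.cAn_compact.exists_bound_of_continuousOn
    ((D.P'_contOn.mono D.sub).div (D.k_contOn.mono D.sub) hk)
  obtain ⟨B2, h2⟩ := D.cAn_compact.exists_bound_of_continuousOn
    ((D.Q'_contOn.mono D.sub).div (D.k_contOn.mono D.sub) hk)
  refine ⟨max 0 (max B1 B2), le_max_left _ _, fun z => ?_⟩
  by_cases hz : z ∈ D.OmOut
  · obtain ⟨X, ⟨hX, h⟩, rfl⟩ := hz
    rw [D.g0_out hX h, RCLike.norm_conj]
    exact (h1 X (cA_sub D hX)).trans ((le_max_left _ _).trans (le_max_right _ _))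
  · by_cases hz2 : z ∈ D.OmIn
    · obtain ⟨X, ⟨hX, h⟩, rfl⟩ := hz2
      rw [D.g0_in hX h, RCLike.norm_conj]
      exact (h2 X (cA_sub D hX)).trans ((le_max_right _ _).trans (le_max_right _ _))
    · unfold Dat.g0
      rw [if_neg hz, if_neg hz2, norm_zero]
      exact le_max_left _ _

lemma u0_meas : Measurable D.u0 := by
  classical
  have h1 : Measurable (D.Om.piecewise D.vP (fun _ => 0)) :=
    (vP_contOn D).measurable_piecewise continuousOn_const D.Om_open.measurableSet
  have h2 : Measurable (D.OmIn.piecewise D.vQ (fun _ => 0)) :=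
    ((vQ_contOn D).mono D.OmIn_sub).measurable_piecewise continuousOn_const
      D.OmIn_open.measurableSet
  have h3 : Measurable (D.OmIn.piecewise (D.OmIn.piecewise D.vQ (fun _ => 0))
      (D.Om.piecewise D.vP (fun _ => 0))) :=
    Measurable.piecewise D.OmIn_open.measurableSet h2 h1
  convert h3 using 1
  ext z
  unfold Dat.u0
  by_cases ha : z ∈ D.OmIn
  · simp [Set.piecewise, ha]
  · by_cases hb : z ∈ D.Om
    · simp [Set.piecewise, ha, hb]
    · simp [Set.piecewise, ha, hb]

lemma gr_contOn {P' : ℂ → ℂ} (hP' : ContinuousOn P' D.W) :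
    ContinuousOn (fun z => conj (P' (D.kinv z) / D.k (D.kinv z))) D.Om := by
  rintro z ⟨X, hX, rfl⟩
  have hXW := D.An_sub hX
  have hk := D.kinv_cont hXW
  have h1 : ContinuousAt (fun z => P' (D.kinv z)) (D.f X) := by
    refine ContinuousAt.comp (g := P') ?_ hk
    rw [D.kinv_f hXW]
    exact hP'.continuousAt (D.hW.mem_nhds hXW)
  have h2 : ContinuousAt (fun z => D.k (D.kinv z)) (D.f X) := by
    refine ContinuousAt.comp (g := D.k) ?_ hk
    rw [D.kinv_f hXW]
    exact D.k_contOn.continuousAt (D.hW.mem_nhds hXW)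
  have h3 : ContinuousAt (fun z => P' (D.kinv z) / D.k (D.kinv z)) (D.f X) := by
    refine h1.div h2 ?_
    rw [D.kinv_f hXW]
    exact D.k0 X hXW
  exact (ContinuousAt.comp (g := fun w : ℂ => conj w)
    Complex.continuous_conj.continuousAt h3).continuousWithinAt

lemma g0_meas : Measurable D.g0 := by
  classical
  have h1 : Measurable (D.OmOut.piecewise (fun z => conj (D.P' (D.kinv z) / D.k (D.kinv z)))
      (fun _ => 0)) :=
    ((gr_contOn D D.P'_contOn).mono D.OmOut_sub).measurable_piecewise continuousOn_const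
      D.OmOut_open.measurableSet
  have h2 : Measurable (D.OmIn.piecewise (fun z => conj (D.Q' (D.kinv z) / D.k (D.kinv z)))
      (fun _ => 0)) :=
    ((gr_contOn D D.Q'_contOn).mono D.OmIn_sub).measurable_piecewise continuousOn_const
      D.OmIn_open.measurableSet
  have h3 : Measurable (D.OmOut.piecewise
      (D.OmOut.piecewise (fun z => conj (D.P' (D.kinv z) / D.k (D.kinv z))) (fun _ => 0))
      (D.OmIn.piecewise (fun z => conj (D.Q' (D.kinv z) / D.k (D.kinv z))) (fun _ => 0))) :=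
    Measurable.piecewise D.OmOut_open.measurableSet h1 h2
  convert h3 using 1
  ext1 z
  unfold Dat.g0
  by_cases ha : z ∈ D.OmOut
  · simp [Set.piecewise, ha]
  · by_cases hb : z ∈ D.OmIn
    · simp [Set.piecewise, ha, hb]
    · simp [Set.piecewise, ha, hb]

lemma u0_cont_in {z : ℂ} (hz : z ∈ D.OmIn) : ContinuousAt D.u0 z := by
  have : D.u0 =ᶠ[𝓝 z] D.vQ := by
    filter_upwards [D.OmIn_open.mem_nhds hz] with y hy
    obtain ⟨X, ⟨hX, h⟩, rfl⟩ := hy
    rw [D.u0_in hX h, D.vQ_f hX]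
  obtain ⟨X, ⟨hX, h⟩, rfl⟩ := hz
  exact (vQ_grad D hX).continuousAt.congr this.symm

lemma u0_cont_out {z : ℂ} (hz : z ∈ D.OmOut) : ContinuousAt D.u0 z := by
  have : D.u0 =ᶠ[𝓝 z] D.vP := by
    filter_upwards [D.OmOut_open.mem_nhds hz] with y hy
    obtain ⟨X, ⟨hX, h⟩, rfl⟩ := hy
    have h' : 1 < ‖X‖ := h
    rw [D.u0_out hX h'.le, D.vP_f hX]
  obtain ⟨X, ⟨hX, h⟩, rfl⟩ := hz
  exact (vP_grad D hX).continuousAt.congr this.symm

theorem isJump_u0 {z : ℂ} (hz : z ∈ D.Gam) : IsJump D.u0 z (D.vP z) (D.vQ z) (D.nu0 z) := by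
  obtain ⟨B, -, hB⟩ := u0_bound D
  obtain ⟨X, hX1, rfl⟩ := hz
  have hX : X ∈ An D.σ := D.sphere_sub hX1
  rw [mem_sphere, dist_zero_right] at hX1
  have hD := D.An_sub hX
  have hf := D.k0 X hD
  set n : ℂ := 2 * (conj (D.k X)⁻¹ * X) with hn
  have hX0 := D.ne_zero hX
  have hn0 : n ≠ 0 := by
    rw [hn]
    refine mul_ne_zero two_ne_zero (mul_ne_zero ?_ hX0)
    exact (map_ne_zero _).2 (inv_ne_zero hf)
  have hφ : HasFDerivAt (fun z => ‖D.kinv z‖ ^ 2 - 1) (innerSL ℝ n) (D.f X) := by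
    have h1 : HasFDerivAt D.kinv (((ContinuousLinearMap.toSpanSingleton ℂ
        (D.k X)⁻¹).restrictScalars ℝ : ℂ →L[ℝ] ℂ)) (D.f X) :=
      (D.kinv_deriv hD).hasFDerivAt.restrictScalars ℝ
    have h2 := (h1.norm_sq).sub_const 1
    refine h2.congr_fderiv ?_
    rw [D.kinv_f hD]
    ext e
    rw [hn]
    simp [Complex.inner]
    ring
  have hOm : ∀ᶠ y in 𝓝 (D.f X), y ∈ D.Om := D.Om_open.mem_nhds ⟨X, hX, rfl⟩
  have key := isJump_interface2 (u := D.u0) (v := D.vP) (w := D.vQ)
    (φ := fun z => ‖D.kinv z‖ ^ 2 - 1) (x := D.f X) (n := n) (B := B) hn0 hφ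
    (by simp [D.kinv_f hD, hX1]) (vP_grad D hX).continuousAt (vQ_grad D hX).continuousAt
    (by
      rw [D.vP_f hX, D.vQ_f hX]
      exact D.sep X hX1)
    (u0_meas D).aemeasurable
    (by
      filter_upwards [hOm] with y hy h
      obtain ⟨Y, hY, rfl⟩ := hy
      rw [D.kinv_f (D.An_sub hY)] at h
      rw [D.u0_out hY (by nlinarith [norm_nonneg Y]), D.vP_f hY])
    (by
      filter_upwards [hOm] with y hy h
      obtain ⟨Y, hY, rfl⟩ := hy
      rw [D.kinv_f (D.An_sub hY)] at h
      rw [D.u0_in hY (by nlinarith [norm_nonneg Y]), D.vQ_f hY])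
    (Eventually.of_forall hB)
  have e : ((‖n‖⁻¹ : ℝ) • n) = D.nu0 (D.f X) := by
    rw [D.nu0_eq hX, hn]
    rw [norm_mul, norm_mul, hX1, RCLike.norm_conj, norm_inv, Complex.real_smul, Complex.real_smul]
    have h2 : ‖(2 : ℂ)‖ = 2 := by norm_num
    rw [h2]
    have hfn : ((‖D.k X‖ : ℝ) : ℂ) ≠ 0 := by exact_mod_cast norm_ne_zero_iff.2 hf
    have hcf : conj (D.k X) ≠ 0 := (map_ne_zero _).2 hf
    have hm : D.k X * conj (D.k X) = ((‖D.k X‖ : ℝ) : ℂ) ^ 2 := by
      rw [Complex.mul_conj, Complex.normSq_eq_norm_sq]; push_cast; ring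
    push_cast
    rw [map_inv₀]
    field_simp
    linear_combination -hm
  rw [e] at key
  exact key

theorem jumpSet_u0 : jumpSet D.Om D.u0 = D.Gam := by
  apply Subset.antisymm
  · rintro z ⟨hz, a, b, ν, h⟩
    rcases D.Om_split hz with h1 | h1 | h1
    · exact absurd (approxLim_of_continuousAt (u0_cont_in D h1))
        (IsJump.not_approxLim (u0_meas D).aemeasurable h _)
    · exact h1
    · exact absurd (approxLim_of_continuousAt (u0_cont_out D h1))
        (IsJump.not_approxLim (u0_meas D).aemeasurable h _)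
  · intro z hz
    exact ⟨D.Gam_sub hz, _, _, _, isJump_u0 D hz⟩

theorem discSet_u0 : discSet D.Om D.u0 = D.Gam := by
  apply Subset.antisymm
  · rintro z ⟨hz, h⟩
    rcases D.Om_split hz with h1 | h1 | h1
    · exact absurd (approxLim_of_continuousAt (u0_cont_in D h1)) (h _)
    · exact h1
    · exact absurd (approxLim_of_continuousAt (u0_cont_out D h1)) (h _)
  intro z hz
  exact ⟨D.Gam_sub hz, fun a => IsJump.not_approxLim (u0_meas D).aemeasurable (isJump_u0 D hz) a⟩

theorem energy_finite (A : Set ℂ) (hA : OpenIn D.Om A) :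
    energy D.Om D.u0 D.g0 A < (⊤ : ℝ≥0∞) := by
  obtain ⟨B, hB0, hB⟩ := g0_bound D
  unfold energy
  apply ENNReal.add_lt_top.2
  constructor
  · have h1 : volume A < ⊤ := (measure_mono subset_closure).trans_lt hA.2.1.measure_lt_top
    calc ∫⁻ x in A, ‖D.g0 x‖ₑ ^ 2 ≤ ∫⁻ _ in A, ENNReal.ofReal B ^ 2 := by
          apply lintegral_mono
          intro x
          have h2 : ‖D.g0 x‖ₑ ≤ ENNReal.ofReal B := by
            rw [← ofReal_norm]
            exact ENNReal.ofReal_le_ofReal (hB x)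
          exact pow_le_pow_left' h2 2
      _ = ENNReal.ofReal B ^ 2 * volume A := by rw [setLIntegral_const]
      _ < ⊤ := ENNReal.mul_lt_top (ENNReal.pow_lt_top ENNReal.ofReal_lt_top) h1
  · rw [discSet_u0]
    exact (measure_mono inter_subset_left).trans_lt (Gam_finite D)

lemma Gam_null : volume D.Gam = 0 := by
  apply addHaar_image_eq_zero_of_differentiableOn_of_addHaar_eq_zero
  · intro X hX
    exact ((D.hf X (D.An_sub (D.sphere_sub hX))).hasFDerivAt.restrictScalars
      ℝ).differentiableAt.differentiableWithinAt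
  · exact Measure.addHaar_sphere volume 0 1

lemma V_smooth {P P' : ℂ → ℂ} (hP : ∀ X ∈ D.W, HasDerivAt P (P' X) X) :
    ContDiffOn ℝ 1 (fun z => (P (D.kinv z)).re) D.Om := by
  have h1 : DifferentiableOn ℂ (fun z => P (D.kinv z)) D.Om := by
    rintro z ⟨X, hX, rfl⟩
    exact (kinv_comp D hP (D.An_sub hX)).differentiableAt.differentiableWithinAt
  have h2 : ContDiffOn ℝ 1 (fun z => P (D.kinv z)) D.Om :=
    (h1.contDiffOn D.Om_open).restrict_scalars ℝ
  exact Complex.reCLM.contDiff.comp_contDiffOn h2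

/-- integration over `Om` splits -/
lemma split_int {f : ℂ → ℝ} (hf : Integrable f) :
    ∫ z in D.Om, f z = (∫ z in D.OmIn, f z) + ∫ z in D.OmOut, f z := by
  have hd : Disjoint D.OmIn D.OmOut := by
    rw [Set.disjoint_left]
    rintro z ⟨X, ⟨hX, h⟩, rfl⟩ h2
    have := (D.mem_OmOut hX).1 h2
    have h' : ‖X‖ < 1 := h
    linarith
  have he : D.Om =ᵐ[volume] (D.OmIn ∪ D.OmOut : Set ℂ) := by
    have h1 : D.Om ⊆ (D.OmIn ∪ D.OmOut) ∪ D.Gam := by
      intro z hz
      rcases D.Om_split hz with h | h | h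
      · exact Or.inl (Or.inl h)
      · exact Or.inr h
      · exact Or.inl (Or.inr h)
    have h2 : D.OmIn ∪ D.OmOut ⊆ D.Om := union_subset D.OmIn_sub D.OmOut_sub
    refine (ae_eq_set).2 ⟨?_, ?_⟩
    · refine measure_mono_null ?_ (Gam_null D)
      rintro z ⟨hz, hz2⟩
      rcases h1 hz with h | h
      · exact absurd h hz2
      · exact h
    · rw [Set.sdiff_eq_empty.2 h2]; simp
  rw [setIntegral_congr_set he, setIntegral_union hd D.OmOut_open.measurableSet hf.integrableOn
    hf.integrableOn]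

theorem sbv_u0 : IsSBVlocWith D.Om D.u0 D.g0 D.vP D.vQ D.nu0 := by
  obtain ⟨B, hB0, hB⟩ := u0_bound D
  obtain ⟨C, hC0, hC⟩ := g0_bound D
  constructor
  · have h : LocallyIntegrable D.u0 := by
      refine (locallyIntegrable_const B).mono (u0_meas D).aestronglyMeasurable
        (Eventually.of_forall fun z => ?_)
      rw [Real.norm_eq_abs, Real.norm_eq_abs]
      exact (hB z).trans (le_abs_self _)
    exact h.locallyIntegrableOn _
  · have h : LocallyIntegrable D.g0 := by
      refine (locallyIntegrable_const C).mono (g0_meas D).aestronglyMeasurable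
        (Eventually.of_forall fun z => ?_)
      rw [Real.norm_eq_abs]
      exact (hC z).trans (le_abs_self _)
    exact h.locallyIntegrableOn _
  · intro x hx
    rw [jumpSet_u0] at hx
    exact isJump_u0 D hx
  · intro K _ _
    rw [jumpSet_u0]
    have hc : ContinuousOn (fun x => (((D.vP x - D.vQ x : ℝ)) : ℂ) * D.nu0 x) D.Gam :=
      ((Complex.continuous_ofReal.comp_continuousOn
        ((vP_contOn D).sub (vQ_contOn D))).mul (nu0_contOn D)).mono D.Gam_sub
    have h1 := (curveGam D hc).1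
    have h2 : IntegrableOn (fun x => (D.vP x - D.vQ x) • D.nu0 x) D.Gam (μH[1] : Measure ℂ) := by
      refine h1.congr_fun ?_ D.Gam_compact.measurableSet
      intro z _
      show ((D.vP z - D.vQ z : ℝ) : ℂ) * D.nu0 z = (D.vP z - D.vQ z) • D.nu0 z
      rw [Complex.real_smul]
    exact h2.mono_set inter_subset_right
  · intro η hη hηc hηO v
    rw [jumpSet_u0]
    have hη1 : ContDiff ℝ 1 η := hη.of_le (by exact_mod_cast le_top)
    have hηK : ∀ z ∉ tsupport η, η z = 0 := fun z hz => image_eq_zero_of_notMem_tsupport hz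
    have hfη : Continuous (fun z => fderiv ℝ η z v) :=
      (hη1.continuous_fderiv one_ne_zero).clm_apply continuous_const
    have hfη0 : ∀ z ∉ tsupport η, fderiv ℝ η z v = 0 := by
      intro z hz
      have : z ∉ tsupport (fderiv ℝ η) := fun h => hz (tsupport_fderiv_subset ℝ h)
      rw [image_eq_zero_of_notMem_tsupport this]
      simp
    have hcs : HasCompactSupport (fun z => fderiv ℝ η z v) :=
      HasCompactSupport.intro hηc hfη0
    -- the two applications of Gauss-Green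
    have hF1 : ContDiffOn ℝ 1 (fun z => D.vP z * η z) D.Om :=
      (V_smooth D D.hP).mul hη1.contDiffOn
    have hF2 : ContDiffOn ℝ 1 (fun z => D.vQ z * η z) D.Om :=
      (V_smooth D D.hQ).mul hη1.contDiffOn
    have g1 := (gauss_green D hF1 hηc hηO (fun z hz => by rw [hηK z hz, mul_zero]) v).1
    have g2 := (gauss_green D hF2 hηc hηO (fun z hz => by rw [hηK z hz, mul_zero]) v).2
    -- pointwise identities
    have p1 : ∀ z ∈ D.OmOut, fderiv ℝ (fun z => D.vP z * η z) z v
        = η z * inner ℝ (D.g0 z) v + D.u0 z * fderiv ℝ η z v := by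
      rintro z ⟨X, ⟨hX, h⟩, rfl⟩
      have h' : 1 < ‖X‖ := h
      have h2 := (vP_grad D hX).mul ((hη1.differentiable one_ne_zero (D.f X)).hasFDerivAt)
      have h3 : fderiv ℝ (fun z => D.vP z * η z) (D.f X) = _ := h2.fderiv
      rw [h3, D.g0_out hX h', D.u0_out hX h'.le, D.vP_f hX]
      simp only [add_apply, smul_apply, smul_eq_mul, innerSL_apply_apply]
      ring
    have p2 : ∀ z ∈ D.OmIn, fderiv ℝ (fun z => D.vQ z * η z) z v
        = η z * inner ℝ (D.g0 z) v + D.u0 z * fderiv ℝ η z v := by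
      rintro z ⟨X, ⟨hX, h⟩, rfl⟩
      have h' : ‖X‖ < 1 := h
      have h2 := (vQ_grad D hX).mul ((hη1.differentiable one_ne_zero (D.f X)).hasFDerivAt)
      have h3 : fderiv ℝ (fun z => D.vQ z * η z) (D.f X) = _ := h2.fderiv
      rw [h3, D.g0_in hX h', D.u0_in hX h', D.vQ_f hX]
      simp only [add_apply, smul_apply, smul_eq_mul, innerSL_apply_apply]
      ring
    have i1 : Integrable (fun z => η z * inner ℝ (D.g0 z) v) := by
      have hηi : Integrable η := hη1.continuous.integrable_of_hasCompactSupport hηc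
      refine (hηi.norm.mul_const (C * ‖v‖)).mono'
        (hη1.continuous.aestronglyMeasurable.mul
          (((g0_meas D).inner measurable_const).aestronglyMeasurable))
        (Eventually.of_forall fun z => ?_)
      rw [norm_mul]
      gcongr
      refine (norm_inner_le_norm _ _).trans ?_
      gcongr
      exact hC z
    have i2 : Integrable (fun z => D.u0 z * fderiv ℝ η z v) := by
      have h3 : Integrable (fun z => fderiv ℝ η z v) := hfη.integrable_of_hasCompactSupport hcs
      refine (h3.norm.const_mul B).mono'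
        ((u0_meas D).aestronglyMeasurable.mul hfη.aestronglyMeasurable)
        (Eventually.of_forall fun z => ?_)
      rw [norm_mul]
      gcongr
      exact hB z
    rw [setIntegral_congr_fun D.OmOut_open.measurableSet p1,
      integral_add i1.integrableOn i2.integrableOn] at g1
    rw [setIntegral_congr_fun D.OmIn_open.measurableSet p2,
      integral_add i1.integrableOn i2.integrableOn] at g2
    have s1 := split_int D i1
    have s2 := split_int D i2
    -- the arc integrals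
    have hG1 : IntegrableOn (fun z => ((D.vP z * η z : ℝ) : ℂ) * D.nu0 z) D.Gam
      (μH[1] : Measure ℂ) := (gam_int D hF1).1
    have hG2 : IntegrableOn (fun z => ((D.vQ z * η z : ℝ) : ℂ) * D.nu0 z) D.Gam
      (μH[1] : Measure ℂ) := (gam_int D hF2).1
    have hi : ∀ {f : ℂ → ℝ}, IntegrableOn (fun z => ((f z : ℝ) : ℂ) * D.nu0 z) D.Gam
        (μH[1] : Measure ℂ) →
        IntegrableOn (fun z => f z * inner ℝ (D.nu0 z) v) D.Gam (μH[1] : Measure ℂ) := by
      intro f hf
      refine (hf.inner_const v).congr (Eventually.of_forall fun z => ?_)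
      show inner ℝ (((f z : ℝ) : ℂ) * D.nu0 z) v = f z * inner ℝ (D.nu0 z) v
      rw [← Complex.real_smul, real_inner_smul_left]
    have e3 : ∫ x in D.Gam, η x * inner ℝ ((D.vP x - D.vQ x) • D.nu0 x) v ∂(μH[1] : Measure ℂ)
        = (∫ z in D.Gam, D.vP z * η z * inner ℝ (D.nu0 z) v ∂(μH[1] : Measure ℂ))
          - ∫ z in D.Gam, D.vQ z * η z * inner ℝ (D.nu0 z) v ∂(μH[1] : Measure ℂ) := by
      rw [← integral_sub (hi hG1) (hi hG2)]
      refine setIntegral_congr_fun D.Gam_compact.measurableSet ?_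
      intro z _
      show η z * inner ℝ ((D.vP z - D.vQ z) • D.nu0 z) v
        = D.vP z * η z * inner ℝ (D.nu0 z) v - D.vQ z * η z * inner ℝ (D.nu0 z) v
      rw [real_inner_smul_left]
      ring
    show -∫ x in D.Om, D.u0 x * fderiv ℝ η x v = (∫ x in D.Om, η x * inner ℝ (D.g0 x) v)
      + ∫ x in D.Gam, η x * inner ℝ ((D.vP x - D.vQ x) • D.nu0 x) v ∂(μH[1] : Measure ℂ)
    rw [e3, s1, s2]
    linarith

theorem sbv : S_SBV := fun D =>
  ⟨sbv_u0 D, jumpSet_u0 D, discSet_u0 D, fun A hA => energy_finite D A hA⟩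

end Pool.Agent.Y31.LMS
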