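import Pool.Agent.TH209.J1348
import Pool.Agent.Y195.LM.Geom
import Pool.Agent.Y195.LM.Stm

/-! Project LM: Gauss–Green on both sides of the closed curve `D.Gam` (`S_GG`, `S_INT`).
This is `Pool/Agent/TH209/J1348.lean` for general data. -/

set_option autoImplicit false

open MeasureTheory Set Filter Topology Metric
open scoped ENNReal ComplexConjugate

namespace Pool.Agent.Y31.LMG

open Pool.Agent.H792R3.Quad Pool.Agent.TH113.MS Pool.Agent.Y195.LM Complex
open Pool.Agent.TH209.MS (curve DF DF_inner CR DF_zero gam)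
open scoped Real NNReal

variable (D : Dat)

/-- arc length integrals over `D.Gam` -/
lemma curveGam {F : ℂ → ℂ} (hF : ContinuousOn F D.Gam) :
    IntegrableOn F D.Gam (μH[1] : Measure ℂ) ∧
    ∫ z in D.Gam, F z ∂μH[1] = ∫ t in (-π)..π, ((‖D.k (ex t)‖ : ℝ) : ℂ) * F (D.f (ex t)) := by
  have h := curve (f := D.f) (k := D.k) D.hW (fun z hz => D.hf z hz) D.k_contOn
    D.inj (c := 0) one_pos (D.sphere_sub.trans D.An_sub) (F := F) hF
  refine ⟨h.1, h.2.trans ?_⟩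
  congr 1
  ext t
  simp [gam]

theorem Gam_finite : (μH[1] : Measure ℂ) D.Gam < (⊤ : ℝ≥0∞) := by
  have h := (curveGam D (F := fun _ => 1) continuousOn_const).1
  rw [integrableOn_const_iff] at h
  simpa using h

section
variable {F : ℂ → ℝ}

/-- pull back -/
noncomputable def WF (F : ℂ → ℝ) (X : ℂ) : ℂ := D.k X * ((F (D.f X) : ℝ) : ℂ)

lemma k_deriv {X : ℂ} (hX : X ∈ D.W) : HasDerivAt D.k (deriv D.k X) X :=
  (tr_f' D.hW D.hf hX).differentiableAt.hasDerivAt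

lemma WF_deriv (hF : ContDiffOn ℝ 1 F D.Om) {X : ℂ} (hX : X ∈ An D.σ) :
    HasFDerivAt (WF D F) (fderiv ℝ (WF D F) X) X ∧
    fderiv ℝ (WF D F) X 1 + I * fderiv ℝ (WF D F) X I = ((‖D.k X‖ ^ 2 : ℝ) : ℂ) * DF F (D.f X) := by
  have hXW : X ∈ D.W := D.An_sub hX
  have hO : D.f X ∈ D.Om := ⟨X, hX, rfl⟩
  have hFd : HasFDerivAt F (fderiv ℝ F (D.f X)) (D.f X) :=
    ((hF.contDiffAt (D.Om_open.mem_nhds hO)).differentiableAt one_ne_zero).hasFDerivAt
  have h1 : HasFDerivAt D.f (((ContinuousLinearMap.toSpanSingleton ℂ (D.k X)).restrictScalars ℝ :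
      ℂ →L[ℝ] ℂ)) X := (D.hf X hXW).hasFDerivAt.restrictScalars ℝ
  have h2 : HasFDerivAt D.k (((ContinuousLinearMap.toSpanSingleton ℂ
      (deriv D.k X)).restrictScalars ℝ : ℂ →L[ℝ] ℂ)) X :=
    (k_deriv D hXW).hasFDerivAt.restrictScalars ℝ
  have h3 := (Complex.ofRealCLM.hasFDerivAt).comp X (hFd.comp X h1)
  have h4 := h2.mul h3
  have h5 : HasFDerivAt (WF D F) _ X := h4
  rw [h5.fderiv]
  refine ⟨h5, ?_⟩
  have e := CR (fderiv ℝ F (D.f X)) (D.k X)
  have e2 : ((‖D.k X‖ ^ 2 : ℝ) : ℂ) = D.k X * conj (D.k X) := by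
    rw [Complex.mul_conj, Complex.normSq_eq_norm_sq]
  have e3 : D.k X * conj (D.k X) * DF F (D.f X)
      = D.k X * (((fderiv ℝ F (D.f X) (D.k X) : ℝ) : ℂ)
        + I * ((fderiv ℝ F (D.f X) (D.k X * I) : ℝ) : ℂ)) := by
    unfold DF
    rw [e]; ring
  rw [e2, e3]
  simp only [add_apply, smul_apply,
    ContinuousLinearMap.comp_apply, ContinuousLinearMap.coe_restrictScalars',
    ContinuousLinearMap.toSpanSingleton_apply, smul_eq_mul, Function.comp_apply,
    Complex.ofRealCLM_apply, one_mul]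
  rw [mul_comm I (D.k X)]
  linear_combination (deriv D.k X) * ((F (D.f X) : ℝ) : ℂ) * I_mul_I

lemma DF_cont (hF : ContDiffOn ℝ 1 F D.Om) : ContinuousOn (DF F) D.Om := by
  have hf : ContinuousOn (fderiv ℝ F) D.Om := hF.continuousOn_fderiv_of_isOpen D.Om_open le_rfl
  unfold DF
  exact (Complex.continuous_ofReal.comp_continuousOn (hf.clm_apply continuousOn_const)).add
    (continuousOn_const.mul (Complex.continuous_ofReal.comp_continuousOn
      (hf.clm_apply continuousOn_const)))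

lemma DF_int (hF : ContDiffOn ℝ 1 F D.Om) {K : Set ℂ} (hK : IsCompact K)
    (hKO : K ⊆ D.Om) (hFK : ∀ z ∉ K, F z = 0) : Integrable (DF F) := by
  rw [← integrableOn_iff_integrable_of_support_subset (s := K)]
  · exact ((DF_cont D hF).mono hKO).integrableOn_compact hK
  · intro z hz
    by_contra h
    exact hz (DF_zero hK hFK h)

/-- change of variables -/
lemma change {S : Set ℂ} (hS : MeasurableSet S) (hSA : S ⊆ An D.σ) :
    ∫ z in D.f '' S, DF F z = ∫ X in S, ((‖D.k X‖ ^ 2 : ℝ) : ℂ) * DF F (D.f X) := by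
  have h := integral_image_eq_integral_abs_det_fderiv_smul volume hS
    (f := D.f) (f' := fun X => ((ContinuousLinearMap.toSpanSingleton ℂ (D.k X)).restrictScalars ℝ :
      ℂ →L[ℝ] ℂ))
    (fun X hXS => ((D.hf X (D.An_sub (hSA hXS))).hasFDerivAt.restrictScalars ℝ).hasFDerivWithinAt)
    (D.inj.mono (hSA.trans D.An_sub)) (DF F)
  rw [h]
  refine setIntegral_congr_fun hS (fun X _ => ?_)
  show |_| • _ = _
  rw [det_mul, abs_of_nonneg (by positivity), Complex.real_smul]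

lemma exists_m {K : Set ℂ} (hK : IsCompact K) (hKO : K ⊆ D.Om) :
    ∃ m : ℝ, 0 < m ∧ m < D.σ ∧ ∀ X ∈ An D.σ, m ≤ |‖X‖ ^ 2 - 1| → D.f X ∉ K := by
  have hc : IsCompact (D.kinv '' K) := by
    refine hK.image_of_continuousOn (fun z hz => ?_)
    obtain ⟨X, hX, rfl⟩ := hKO hz
    exact (D.kinv_cont (D.An_sub hX)).continuousWithinAt
  have hsub : D.kinv '' K ⊆ An D.σ := by
    rintro _ ⟨z, hz, rfl⟩
    obtain ⟨X, hX, rfl⟩ := hKO hz
    rwa [D.kinv_f (D.An_sub hX)]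
  have hcont : Continuous (fun X : ℂ => |‖X‖ ^ 2 - 1|) :=
    ((continuous_norm.pow 2).sub continuous_const).abs
  obtain ⟨m0, h0, h1, h2⟩ : ∃ m : ℝ, 0 ≤ m ∧ m < D.σ ∧ ∀ X ∈ D.kinv '' K, |‖X‖ ^ 2 - 1| ≤ m := by
    rcases (D.kinv '' K).eq_empty_or_nonempty with he | hne
    · exact ⟨0, le_rfl, D.σ0, by rw [he]; simp⟩
    · obtain ⟨Y, hY, hmax⟩ := hc.exists_isMaxOn hne hcont.continuousOn
      exact ⟨|‖Y‖ ^ 2 - 1|, abs_nonneg _, hsub hY, fun X hX => hmax hX⟩
  refine ⟨(m0 + D.σ) / 2, by linarith, by linarith, ?_⟩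
  intro X hX hm hXK
  have := h2 X ⟨D.f X, hXK, D.kinv_f (D.An_sub hX)⟩
  linarith

lemma out_int (hF : ContDiffOn ℝ 1 F D.Om) {K : Set ℂ} (hK : IsCompact K)
    (hKO : K ⊆ D.Om) (hFK : ∀ z ∉ K, F z = 0) :
    ∫ z in D.OmOut, DF F z = -∫ t in (-π)..π, ex t * WF D F (ex t) := by
  obtain ⟨m, hm0, hm1, hm⟩ := exists_m D hK hKO
  set b : ℝ := √(1 + m) with hb
  have hb2 : b ^ 2 = 1 + m := Real.sq_sqrt (by linarith)
  have hb0 : 0 ≤ b := Real.sqrt_nonneg _
  have hσ1 := D.σ1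
  have hb1 : 1 < b := by nlinarith
  have hSm : MeasurableSet (An D.σ ∩ {X : ℂ | 1 < ‖X‖}) :=
    (D.An_isOpen.inter (isOpen_lt continuous_const continuous_norm)).measurableSet
  have hcA : cann 0 1 b ⊆ An D.σ := by
    intro X hX
    rw [cann, mem_ofPred_eq, sub_zero] at hX
    rw [mem_An, abs_lt]
    constructor <;> nlinarith [norm_nonneg X, hX.1, hX.2]
  have hoc : oann 0 1 b ⊆ cann 0 1 b := fun X hX => ⟨hX.1.le, hX.2.le⟩
  have hsub : oann 0 1 b ⊆ An D.σ ∩ {X : ℂ | 1 < ‖X‖} := by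
    intro X hX
    refine ⟨hcA (hoc hX), ?_⟩
    have := hX.1
    rwa [sub_zero] at this
  have hWc : ContinuousOn (WF D F) (An D.σ) := fun X hX =>
    (WF_deriv D hF hX).1.continuousAt.continuousWithinAt
  have hDc : ContinuousOn (fun X => ((‖D.k X‖ ^ 2 : ℝ) : ℂ) * DF F (D.f X)) (An D.σ) := by
    refine (Complex.continuous_ofReal.comp_continuousOn
      ((D.k_contOn.mono D.An_sub).norm.pow 2)).mul ?_
    exact (DF_cont D hF).comp (D.f_contOn.mono D.An_sub) (fun X hX => ⟨X, hX, rfl⟩)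
  unfold Dat.OmOut
  rw [change D hSm inter_subset_left]
  rw [setIntegral_eq_of_subset_of_forall_sdiff_eq_zero hSm hsub]
  · rw [green_ann (w' := fun X => fderiv ℝ (WF D F) X) one_pos hb1 (hWc.mono hcA) (hDc.mono hcA)
      (fun X hX => (WF_deriv D hF (hcA (hoc hX))).1) (fun X hX => (WF_deriv D hF (hcA (hoc hX))).2)]
    have hz : ∀ t : ℝ, WF D F (0 + b * ex t) = 0 := by
      intro t
      have hn : ‖(0 : ℂ) + b * ex t‖ = b := by
        rw [zero_add, norm_mul, ex_norm, Complex.norm_real, Real.norm_of_nonneg hb0, mul_one]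
      have hA : (0 : ℂ) + b * ex t ∈ An D.σ := by
        rw [mem_An, hn, hb2]
        rw [abs_of_nonneg (by linarith)]
        linarith
      unfold WF
      rw [hFK _ (hm _ hA (by rw [hn, hb2, abs_of_nonneg (by linarith)]; linarith))]
      simp
    simp only [hz]
    simp
  · rintro X ⟨hX1, hX2⟩
    have hX3 : b ≤ ‖X‖ := by
      by_contra h
      push Not at h
      exact hX2 ⟨by rw [sub_zero]; exact hX1.2, by rw [sub_zero]; exact h⟩
    have hX4 : m ≤ |‖X‖ ^ 2 - 1| := by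
      refine le_trans ?_ (le_abs_self _)
      nlinarith
    rw [DF_zero hK hFK (hm X hX1.1 hX4), mul_zero]

lemma in_int (hF : ContDiffOn ℝ 1 F D.Om) {K : Set ℂ} (hK : IsCompact K)
    (hKO : K ⊆ D.Om) (hFK : ∀ z ∉ K, F z = 0) :
    ∫ z in D.OmIn, DF F z = ∫ t in (-π)..π, ex t * WF D F (ex t) := by
  obtain ⟨m, hm0, hm1, hm⟩ := exists_m D hK hKO
  have hσ1 := D.σ1
  set a : ℝ := √(1 - m) with ha
  have ha2 : a ^ 2 = 1 - m := Real.sq_sqrt (by linarith)
  have ha0 : 0 < a := Real.sqrt_pos.2 (by linarith)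
  have ha1 : a < 1 := by nlinarith
  have hSm : MeasurableSet (An D.σ ∩ {X : ℂ | ‖X‖ < 1}) :=
    (D.An_isOpen.inter (isOpen_lt continuous_norm continuous_const)).measurableSet
  have hcA : cann 0 a 1 ⊆ An D.σ := by
    intro X hX
    rw [cann, mem_ofPred_eq, sub_zero] at hX
    rw [mem_An, abs_lt]
    constructor <;> nlinarith [norm_nonneg X, hX.1, hX.2]
  have hoc : oann 0 a 1 ⊆ cann 0 a 1 := fun X hX => ⟨hX.1.le, hX.2.le⟩
  have hsub : oann 0 a 1 ⊆ An D.σ ∩ {X : ℂ | ‖X‖ < 1} := by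
    intro X hX
    refine ⟨hcA (hoc hX), ?_⟩
    have := hX.2
    rwa [sub_zero] at this
  have hWc : ContinuousOn (WF D F) (An D.σ) := fun X hX =>
    (WF_deriv D hF hX).1.continuousAt.continuousWithinAt
  have hDc : ContinuousOn (fun X => ((‖D.k X‖ ^ 2 : ℝ) : ℂ) * DF F (D.f X)) (An D.σ) := by
    refine (Complex.continuous_ofReal.comp_continuousOn
      ((D.k_contOn.mono D.An_sub).norm.pow 2)).mul ?_
    exact (DF_cont D hF).comp (D.f_contOn.mono D.An_sub) (fun X hX => ⟨X, hX, rfl⟩)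
  unfold Dat.OmIn
  rw [change D hSm inter_subset_left]
  rw [setIntegral_eq_of_subset_of_forall_sdiff_eq_zero hSm hsub]
  · rw [green_ann (w' := fun X => fderiv ℝ (WF D F) X) ha0 ha1 (hWc.mono hcA) (hDc.mono hcA)
      (fun X hX => (WF_deriv D hF (hcA (hoc hX))).1) (fun X hX => (WF_deriv D hF (hcA (hoc hX))).2)]
    have hz : ∀ t : ℝ, WF D F (0 + a * ex t) = 0 := by
      intro t
      have hn : ‖(0 : ℂ) + a * ex t‖ = a := by
        rw [zero_add, norm_mul, ex_norm, Complex.norm_real, Real.norm_of_nonneg ha0.le, mul_one]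
      have hA : (0 : ℂ) + a * ex t ∈ An D.σ := by
        rw [mem_An, hn, ha2]
        rw [abs_lt]
        constructor <;> linarith
      unfold WF
      rw [hFK _ (hm _ hA (by rw [hn, ha2, abs_of_nonpos (by linarith)]; linarith))]
      simp
    simp only [hz]
    simp
  · rintro X ⟨hX1, hX2⟩
    have hX3 : ‖X‖ ≤ a := by
      by_contra h
      push Not at h
      exact hX2 ⟨by rw [sub_zero]; exact h, by rw [sub_zero]; exact hX1.2⟩
    have hX4 : m ≤ |‖X‖ ^ 2 - 1| := by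
      refine le_trans ?_ (neg_le_abs _)
      nlinarith [norm_nonneg X]
    rw [DF_zero hK hFK (hm X hX1.1 hX4), mul_zero]

lemma nu0_contOn : ContinuousOn D.nu0 D.Om := by
  intro z hz
  obtain ⟨X, hX, rfl⟩ := hz
  have hk := D.kinv_cont (D.An_sub hX)
  have h1 : ContinuousAt (fun z => D.k (D.kinv z)) (D.f X) :=
    ContinuousAt.comp (g := D.k) (by
      rw [D.kinv_f (D.An_sub hX)]
      exact (k_deriv D (D.An_sub hX)).continuousAt) hk
  have h2 : ContinuousAt D.nu0 (D.f X) := by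
    unfold Dat.nu0
    refine ContinuousAt.smul (ContinuousAt.inv₀ h1.norm ?_) (h1.mul hk)
    rw [D.kinv_f (D.An_sub hX)]
    exact norm_ne_zero_iff.2 (D.k0 X (D.An_sub hX))
  exact h2.continuousWithinAt

lemma gam_int (hF : ContDiffOn ℝ 1 F D.Om) :
    IntegrableOn (fun z => ((F z : ℝ) : ℂ) * D.nu0 z) D.Gam (μH[1] : Measure ℂ) ∧
    ∫ z in D.Gam, ((F z : ℝ) : ℂ) * D.nu0 z ∂(μH[1] : Measure ℂ)
      = ∫ t in (-π)..π, ex t * WF D F (ex t) := by
  have hc : ContinuousOn (fun z => ((F z : ℝ) : ℂ) * D.nu0 z) D.Gam :=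
    ((Complex.continuous_ofReal.comp_continuousOn hF.continuousOn).mul (nu0_contOn D)).mono D.Gam_sub
  obtain ⟨h1, h2⟩ := curveGam D hc
  refine ⟨h1, h2.trans ?_⟩
  congr 1
  ext t
  have hA : ex t ∈ An D.σ := D.sphere_sub (by simp [ex_norm])
  have hne : ((‖D.k (ex t)‖ : ℝ) : ℂ) ≠ 0 := by
    exact_mod_cast norm_ne_zero_iff.2 (D.k0 _ (D.An_sub hA))
  rw [D.nu0_eq hA, Complex.real_smul, Complex.ofReal_inv]
  unfold WF
  field_simp

end

theorem gauss_green {F : ℂ → ℝ} (hF : ContDiffOn ℝ 1 F D.Om) {K : Set ℂ} (hK : IsCompact K)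
    (hKO : K ⊆ D.Om) (hFK : ∀ z ∉ K, F z = 0) (v : ℂ) :
    (∫ z in D.OmOut, fderiv ℝ F z v =
      -∫ z in D.Gam, F z * inner ℝ (D.nu0 z) v ∂(μH[1] : Measure ℂ)) ∧
    (∫ z in D.OmIn, fderiv ℝ F z v =
      ∫ z in D.Gam, F z * inner ℝ (D.nu0 z) v ∂(μH[1] : Measure ℂ)) := by
  obtain ⟨hg1, hg2⟩ := gam_int D hF
  have hI := DF_int D hF hK hKO hFK
  have e0 : ∀ z, F z * inner ℝ (D.nu0 z) v = inner ℝ v (((F z : ℝ) : ℂ) * D.nu0 z) := by
    intro z
    rw [← Complex.real_smul, inner_smul_right, real_inner_comm]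
  have e1 : ∫ z in D.Gam, F z * inner ℝ (D.nu0 z) v ∂(μH[1] : Measure ℂ)
      = inner ℝ v (∫ t in (-π)..π, ex t * WF D F (ex t)) := by
    simp_rw [e0]
    rw [← hg2, integral_inner hg1]
  have e2 : ∀ S : Set ℂ, ∫ z in S, fderiv ℝ F z v = inner ℝ v (∫ z in S, DF F z) := by
    intro S
    rw [← integral_inner hI.integrableOn]
    simp_rw [DF_inner]
  rw [e2, e2, e1, out_int D hF hK hKO hFK, in_int D hF hK hKO hFK, inner_neg_right]
  exact ⟨rfl, rfl⟩

theorem gg : S_GG := fun D _ hF _ hK hKO hFK v => gauss_green D hF hK hKO hFK v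

theorem int : S_INT := fun D _ hF => (curveGam D hF).1

theorem fin (D : Dat) : (μH[1] : Measure ℂ) D.Gam < ⊤ := Gam_finite D

end Pool.Agent.Y31.LMG
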